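import Pool.Agent.Helper22.AE.E2
import Pool.Agent.Helper22.LP.Main

/-!
# AA (MP_fb29e9_nt): almost every smooth oval, ALL centres, exponent `1/2 + ε`. Definitions

`N = 2 ^ n`; the parent arc number `j` of generation `s` has the length `la M s = 2π / (8 M^s)` and starts at the angle `ang M s j`.
On it the pair `(r, c)` is replaced by a grid point `(rg .. i, cg .. p q)` and the rest of the phase is `∑ i, x i * yy .. i k` with bounded `x i`.
-/

open MeasureTheory Real Set Filter Topology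

set_option autoImplicit false

namespace Pool.Agent.Helper22.AA

open Pool.Agent.Helper22.AE
open Pool.Agent.Helper92.GC (dt)

/-- the sum with weights `a`, radius `r` and centre `c` -/
noncomputable def Uc (B : Finset (ℤ × ℤ)) (a : ℤ × ℤ → ℂ) (H : ℝ → ℝ) (α r : ℝ) (c : ℝ × ℝ) : ℂ :=
  ∑ k ∈ B, a k * ee (r * (nk k * gph H k α) + dt k c)

/-- the length of a parent arc -/
noncomputable def la (M s : ℕ) : ℝ := 2 * π / (8 * (M : ℝ) ^ s)

/-- the angle of the parent arc `j` -/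
noncomputable def ang (M s j : ℕ) : ℝ := 2 * π * j / (8 * (M : ℝ) ^ s)

/-- the radii of the grid, `N` the size of `k`, `l` the length of the arc -/
noncomputable def rg (R₀ N l : ℝ) (i : ℕ) : ℝ := R₀ / 2 + i / (N * l ^ 2)

/-- the centres of the grid -/
noncomputable def cg (N l θ : ℝ) (p q : ℤ) : ℝ × ℝ :=
  (p / N * cos θ - q / (N * l) * sin θ, p / N * sin θ + q / (N * l) * cos θ)

/-- clipping to `[-1, 1]` -/
noncomputable def clip (x : ℝ) : ℝ := max (-1) (min 1 x)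

/-- indices of the local variables: two for the centre, one for the radius, `2 L` for the random coefficients -/
abbrev Iv (L : ℕ) := Fin 3 ⊕ (Fin L ⊕ Fin L)

/-- the defect of the phase of `G` between the directions `tk k` and `θ` -/
noncomputable def dfc (G : ℝ → ℝ) (θ α : ℝ) (k : ℤ × ℤ) : ℝ :=
  nk k * gph G k α - ((k.1 : ℝ) * (bx G (θ + α)).1 + (k.2 : ℝ) * (bx G (θ + α)).2)

/-- the local functions (divided by `Y`, clipped) -/
noncomputable def yy {L : ℕ} (H₀ : ℝ → ℝ) (Y N l θ α : ℝ) : Iv L → ℤ × ℤ → ℝ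
  | .inl i, k => clip ((if i = 0 then ((k.1 : ℝ) * cos θ + (k.2 : ℝ) * sin θ) / N
      else if i = 1 then (-(k.1 : ℝ) * sin θ + (k.2 : ℝ) * cos θ) / (N * l) else dfc H₀ θ α k / (N * l ^ 2)) / Y)
  | .inr (.inl i), k => clip (dfc (fun t => cos ((i : ℕ) * t)) θ α k / (N * l ^ 2) / Y)
  | .inr (.inr i), k => clip (dfc (fun t => sin ((i : ℕ) * t)) θ α k / (N * l ^ 2) / Y)

/-- multi-indices of the exponential series in the variables `ι` -/
abbrev Ix (ι : Type) := Σ m : ℕ, (Fin m → ι)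

/-- the coefficient of the exponential series -/
noncomputable def cx {ι : Type} (X : ℝ) (f : Ix ι) : ℝ := (2 * π * X) ^ f.1 / (Nat.factorial f.1 : ℝ)

/-- the monomial -/
noncomputable def mon {ι : Type} (y : ι → ℤ × ℤ → ℝ) (f : Ix ι) (k : ℤ × ℤ) : ℝ := ∏ j, y (f.2 j) k

/-- the local square function of a sub-arc `A` -/
noncomputable def loc {ι : Type} (X : ℝ) (y : ι → ℤ × ℤ → ℝ) (A : Finset (ℤ × ℤ)) (b : ℤ × ℤ → ℂ) : ENNReal :=
  ∑' f : Ix ι, ENNReal.ofReal (cx X f) * ENNReal.ofReal (‖∑ k ∈ A, b k * (mon y f k : ℂ)‖ ^ 2)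

/-- the radii: number of grid points minus one -/
noncomputable def nI (R₀ N l : ℝ) : ℕ := ⌊7 / 2 * R₀ * (N * l ^ 2)⌋₊

/-- the second coordinates of the centres -/
noncomputable def nQ (N l : ℝ) : ℤ := ⌈N * l⌉

/-- the multilinear square function of generation `s`, summed over the grid of radii and centres -/
noncomputable def XX {L : ℕ} (H₀ : ℝ → ℝ) (X Y R₀ : ℝ) (n M s J : ℕ) (a : ℝ → ℤ × ℤ → ℂ) (α : ℝ)
    (w : (Fin L → ℝ) × (Fin L → ℝ)) : ENNReal :=
  ∑ j ∈ Finset.range (8 * M ^ s), ∑ i ∈ Finset.range (nI R₀ (2 ^ n) (la M s) + 1), ∑ p ∈ Finset.Icc (-(2 ^ n : ℤ)) (2 ^ n),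
    ∑ q ∈ Finset.Icc (-nQ (2 ^ n) (la M s)) (nQ (2 ^ n) (la M s)), ∑ I ∈ gapT J M,
      ∏ t, loc X (yy (L := L) H₀ Y (2 ^ n) (la M s) (ang M s j) α) (arcSet (blk n) (8 * M ^ (s + 1)) (M * j + I t))
        (fun k => a α k * ee (rg R₀ (2 ^ n) (la M s) i * (nk k * gph (Hw H₀ w) k α) + dt k (cg (2 ^ n) (la M s) (ang M s j) p q)))

/-- the tangential defect -/
noncomputable def rt (J : ℕ) (M η : ℝ) (t : ℕ) : ℝ := 4 ^ J * η / (1 / (2 * M ^ t)) ^ (2 * J - 2)

/-- the number of grid points is at most this -/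
noncomputable def ng (R₀ N M : ℝ) (s : ℕ) : ℝ := 60 * R₀ * N ^ 3 / M ^ (3 * s)

/-- the mean of one multilinear product -/
noncomputable def Em (x R₀ M η : ℝ) (s J : ℕ) : ℝ :=
  Dc x M (s + 1) ^ J * ((2 * rr J M η (s + 1) + 1) * (12 * rt J M η (s + 1) + 1)) +
    Dc x M (s + 1) ^ (2 * J) * exp (-(π / 4) * (R₀ / 2) ^ 2 * η ^ 2)

end Pool.Agent.Helper22.AA
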